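import Pool.Agent.Helper39.TBM.Fin

/-! # The volume conjecture along all integers for 2-bridge links with many crossings in every
twist region

Let `A_0, …, A_{r-1}` be nonzero integers, of any signs. `L(A)` is the link with the plat diagram
given by the 3-braid `⋯ σ₂^{A_1} σ₁^{A_0}` (`tbWordZ true [A_0, …, A_{r-1}]`, the factor `σ₁^{A_0}`
at the bottom): a cup joins the strands `2, 3` at the bottom, a cap joins the strands `1, 2` (`r`
even) or `2, 3` (`r` odd) at the top, and the two remaining ends are the open strand. The diagram has
`r` twist regions with `|A_0|, …, |A_{r-1}|` crossings. `L(A)` is the 2-bridge link with the Conway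
notation `A_0, -A_1, A_2, …`; it is a knot or a link with two components. The diagram is alternating
if the signs of the `A_j` alternate; in general the positive continued fraction of `L(A)` has the
partial quotients `|A_j|`, diminished by one at each side where the sign does not change, with
partial quotients `1` inserted between them.

`tbJonesZ n q [A_0, …, A_{r-1}]` is the `n`-th coloured Jones invariant of this diagram, normalised
to be `1` for the unknot, with `Rcheck` (the braiding of the `n`-dimensional module divided by the
twist) at the crossings. The invariants for other framings of the components, in particular for the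
framing zero of all components, differ from it by a power of the framing factor and a sign, so that
at `q = exp (πi/n)` the quotient has modulus `1`: this is the sequence `u` of the theorem.

`tbTri s a r` (with `a j = |A_j|` and `s j` telling whether `A_j` and `A_{j+1}` have the same sign)
is the triangulation of Sakuma and Weeks of the complement of `L(A)`: layers of two ideal tetrahedra
each between two folded four-punctured spheres, as prescribed by the positive continued fraction. An
`IdealStructure` on it is its complete hyperbolic structure: positive dihedral angles summing to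
`2π` around every edge, together with lambda-lengths, so the gluing is complete. The volume is the
sum of the hyperbolic volumes of the tetrahedra with these angles.

The theorem says that there is a constant `T` such that for all `r ≥ 2` and all integers
`A_0, …, A_{r-1}` with `|A_j| ≥ T` this structure exists and the coloured Jones invariants at
`t = exp (2πi/n)` satisfy the volume conjecture along all integers `n`, in particular along the even
ones, and in complexified form for a suitable choice of logarithms. -/

namespace Pool.Agent.Helper39.Old.TwoBridge
open Pool.Agent.Helper39.VC Pool.Agent.Helper39.TB Pool.Agent.Helper39.TBM Pool.Agent.Helper39.PF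
open Filter Topology
open Pool.Agent.Helper67.TBM (tbTri)
open Pool.Agent.Helper52.OC (IdealStructure)

/-- The complexified volume conjecture along all integers for the 2-bridge links `L(A)`, `r ≥ 2`,
with `|A_0|, …, |A_{r-1}| ≥ T`. -/
theorem result : ∃ T : ℕ, ∀ (r : ℕ) (hr : 2 ≤ r) (A : ℕ → ℤ)
    (ha : ∀ f < r, 3 ≤ (A f).natAbs), (∀ f < r, T ≤ (A f).natAbs) →
    ∃ H : IdealStructure (tbTri (fun f => decide (0 < A f) == decide (0 < A (f + 1)))
        (fun f => (A f).natAbs) r hr ha),
      ∀ u : ℕ → ℂ, (∀ n, ‖u n‖ = 1) →
      Tendsto (fun n : ℕ => 2 * Real.pi / n * Complex.log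
        (u n * tbJonesZ n (Complex.exp (Real.pi * Complex.I / n)) ((List.range r).map A)))
        atTop (𝓝 ((∑ i, (hypVol
          (angleTet (H.ang i 0 1) (H.ang i 0 2) (H.ang i 0 3))).toReal : ℝ) : ℂ)) ∧
      ∀ c : ℝ, ∃ ℓ : ℕ → ℂ,
        (∀ᶠ n : ℕ in atTop, Complex.exp (ℓ n)
          = u n * tbJonesZ n (Complex.exp (Real.pi * Complex.I / n)) ((List.range r).map A)) ∧
        Tendsto (fun n : ℕ => 2 * Real.pi / n * ℓ n) atTop
          (𝓝 (((∑ i, (hypVol
            (angleTet (H.ang i 0 1) (H.ang i 0 2) (H.ang i 0 3))).toReal : ℝ) : ℂ)
            + c * Complex.I)) := by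
  obtain ⟨T, hT⟩ := tbm_limit
  refine ⟨T, fun r hr A ha haT => ?_⟩
  obtain ⟨H, h1, h2⟩ := hT r hr A ha haT
  refine ⟨H, fun u hu => ?_⟩
  have hv : ∑ i, (hypVol (angleTet (H.ang i 0 1) (H.ang i 0 2) (H.ang i 0 3))).toReal = H.volume :=
    volume_toReal H
  rw [hv]
  obtain ⟨h3, h4⟩ := log_limit hu h1 h2
  constructor
  · refine h4.congr ?_
    intro n
    unfold qr
    push_cast
    rfl
  · intro c
    obtain ⟨ℓ, l1, l2⟩ := branches h3 h4 c
    refine ⟨ℓ, l1, l2.congr ?_⟩
    intro n
    push_cast
    rfl

end Pool.Agent.Helper39.Old.TwoBridge
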